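import Mathlib

/-!
Special classes are controlled by their sixth multiplicity: the deduction.
-/

set_option autoImplicit false

open MvPolynomial

namespace Pool.Agent.R735.SX

/-- The space of the forms of degree `d` in three variables which vanish to order at least `v i` at the point
`(P i 0 : P i 1 : 1)` of the projective plane, for all `i`. -/
noncomputable def system {n : ℕ} (P : Fin n → Fin 2 → ℂ) (d : ℕ) (v : Fin n → ℕ) :
    Submodule ℂ (MvPolynomial (Fin 3) ℂ) :=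
  homogeneousSubmodule (Fin 3) ℂ d ⊓
    Submodule.restrictScalars ℂ
      (⨅ i : Fin n, (Ideal.span ({X 0 - C (P i 0) * X 2, X 1 - C (P i 1) * X 2} :
        Set (MvPolynomial (Fin 3) ℂ))) ^ (v i))

/-- The class `(d; v 0, …, v (n - 1))` is non-special: for all `P` outside the zero set of a nonzero polynomial in the
coordinates the dimension of `system P d v` is the maximum of `0` and the number of coefficients of a form of degree `d`
minus the number of conditions (the difference of natural numbers is `0` if it would be negative). -/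
def NonSpecial {n : ℕ} (d : ℕ) (v : Fin n → ℕ) : Prop :=
  ∃ F : MvPolynomial (Fin n × Fin 2) ℂ, F ≠ 0 ∧ ∀ P : Fin n → Fin 2 → ℂ,
    eval (fun ij : Fin n × Fin 2 => P ij.1 ij.2) F ≠ 0 →
      Module.finrank ℂ (system P d v) = (d + 2).choose 2 - ∑ i, (v i + 1).choose 2

/-- `B μ = 2 ^ 17 (4 μ ^ 2 + 8 μ + 5) ^ 4` -/
def B (μ : ℕ) : ℕ := 131072 * (4 * μ ^ 2 + 8 * μ + 5) ^ 4

/-- The multiplicities `w 0 ≥ w 1 ≥ ⋯` with `w i > 0` exactly for `i < s`, and a degree `d ≥ w 0 + w 1 + w 2` in which the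
class is special; `s ≥ 4`. -/
def Exception (s d : ℕ) (w : ℕ → ℕ) : Prop :=
  4 ≤ s ∧ Antitone w ∧ (∀ i, i < s → 0 < w i) ∧ (∀ i, s ≤ i → w i = 0) ∧ w 0 + w 1 + w 2 ≤ d ∧
    ¬ NonSpecial d (fun i : Fin s => w i)

lemma B_le {μ : ℕ} (hμ : 1 ≤ μ) : B μ ≤ 11000000000 * μ ^ 8 := by
  unfold B
  have h1 : 4 * μ ^ 2 + 8 * μ + 5 ≤ 17 * μ ^ 2 := by nlinarith
  calc 131072 * (4 * μ ^ 2 + 8 * μ + 5) ^ 4 ≤ 131072 * (17 * μ ^ 2) ^ 4 :=
        Nat.mul_le_mul_left _ (Nat.pow_le_pow_left h1 4)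
    _ = 10947264512 * μ ^ 8 := by ring
    _ ≤ _ := Nat.mul_le_mul_right _ (by norm_num)

lemma B_mono {μ ν : ℕ} (h : μ ≤ ν) : B μ ≤ B ν := by
  unfold B
  apply Nat.mul_le_mul_left
  apply Nat.pow_le_pow_left
  have := Nat.pow_le_pow_left h 2
  omega

lemma B_big (μ : ℕ) : 625 * 131072 ≤ B μ := by
  have := B_mono (Nat.zero_le μ)
  have h0 : B 0 = 131072 * 625 := by unfold B; norm_num
  omega

/-- the starting theorem with five arbitrary multiplicities -/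
def FiveStm : Prop :=
  ∀ (r m : ℕ), 0 < m → ∀ v : Fin (r + 4) → ℕ, Antitone v →
    (∀ i : Fin (r + 4), 5 ≤ (i : ℕ) → v i ≤ m) → ∀ d : ℕ, v 0 + v 1 + v 2 ≤ d →
      (131072 * (4 * m ^ 2 + 8 * m + 5) ^ 4 +
          (v 0 * (v 0 + 1) + v 1 * (v 1 + 1) + v 2 * (v 2 + 1)) ≤ (d + 1) * (d + 2) ∨
        131072 * (4 * m ^ 2 + 8 * m + 5) ^ 4 ≤
          ∑ i : Fin (r + 4), if 3 ≤ (i : ℕ) then (v i + 1).choose 2 else 0) → NonSpecial d v

/-- the starting theorem with a large third multiplicity -/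
def ThirdStm : Prop :=
  ∀ (s m : ℕ) (w : ℕ → ℕ), 0 < m → Antitone w → (∀ i, s ≤ i → w i = 0) →
    (w 5 ≤ m ∧ 4 * m ^ 2 + 8 * m + 5 ≤ w 2) → ∀ d : ℕ, w 0 + w 1 + w 2 ≤ d →
      NonSpecial d (fun i : Fin s => w (i : ℕ))

section

variable {s d : ℕ} {w : ℕ → ℕ}

/-- the basic bounds -/
lemma bounds (h5 : FiveStm) (h3 : ThirdStm) (h : Exception s d w) {μ : ℕ} (hμ : 1 ≤ μ)
    (hw : w 5 ≤ μ) :
    w 2 < 4 * μ ^ 2 + 8 * μ + 5 ∧
    (d + 1) * (d + 2) < B μ + (w 0 * (w 0 + 1) + w 1 * (w 1 + 1) + w 2 * (w 2 + 1)) ∧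
    ∑ i ∈ Finset.Ico 3 s, (w i + 1).choose 2 < B μ := by
  obtain ⟨hs, hanti, hpos, hzero, hd, hns⟩ := h
  refine ⟨?_, ?_, ?_⟩
  · by_contra hcon
    push Not at hcon
    exact hns (h3 s μ w hμ hanti hzero ⟨hw, hcon⟩ d hd)
  all_goals
    obtain ⟨r, rfl⟩ : ∃ r, s = r + 4 := ⟨s - 4, by omega⟩
    have n0 : ((0 : Fin (r + 4)) : ℕ) = 0 := rfl
    have n1 : ((1 : Fin (r + 4)) : ℕ) = 1 := Nat.mod_eq_of_lt (show 1 < r + 4 by omega)
    have n2 : ((2 : Fin (r + 4)) : ℕ) = 2 := Nat.mod_eq_of_lt (show 2 < r + 4 by omega)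
    have key := h5 r μ hμ (fun i : Fin (r + 4) => w i) (fun i j hij => hanti hij)
      (fun i hi => (hanti hi).trans hw) d (by simp only [n0, n1, n2]; exact hd)
    simp only [n0, n1, n2] at key
    by_contra hcon
    push Not at hcon
    apply hns
    apply key
  · exact Or.inl (by unfold B at hcon; exact hcon)
  · right
    have e : ∑ i : Fin (r + 4), (if 3 ≤ (i : ℕ) then (w i + 1).choose 2 else 0) =
        ∑ i ∈ Finset.Ico 3 (r + 4), (w i + 1).choose 2 := by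
      rw [Fin.sum_univ_eq_sum_range (fun i => if 3 ≤ i then (w i + 1).choose 2 else 0) (r + 4),
        ← Finset.sum_filter]
      apply Finset.sum_congr _ fun _ _ => rfl
      ext i
      rw [Finset.mem_filter, Finset.mem_range, Finset.mem_Ico]
      tauto
    rw [e]
    unfold B at hcon
    exact hcon

/-- the number of points, the degree and the multiplicities are bounded in terms of the sixth -/
lemma bounds2 (h5 : FiveStm) (h3 : ThirdStm) (h : Exception s d w) {μ : ℕ} (hμ : 1 ≤ μ)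
    (hw : w 5 ≤ μ) :
    2 * (w 0 * w 1 + w 0 * w 2 + w 1 * w 2) + 2 * (w 0 + w 1 + w 2) + 2 < B μ ∧
    d < B μ ∧ s < B μ + 3 := by
  obtain ⟨b1, b2, b3⟩ := bounds h5 h3 h hμ hw
  obtain ⟨hs, hanti, hpos, hzero, hd, hns⟩ := h
  have h1 : (w 0 + w 1 + w 2 + 1) * (w 0 + w 1 + w 2 + 2) ≤ (d + 1) * (d + 2) :=
    Nat.mul_le_mul (by omega) (by omega)
  have hA : 2 * (w 0 * w 1 + w 0 * w 2 + w 1 * w 2) + 2 * (w 0 + w 1 + w 2) + 2 < B μ := by
    nlinarith
  refine ⟨hA, ?_, ?_⟩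
  · by_contra hcon
    push Not at hcon
    have h2 := B_big μ
    have h3' : 2 * (w 0 + w 1 + w 2) < B μ := by omega
    have h4 : w 0 * (w 0 + 1) + w 1 * (w 1 + 1) + w 2 * (w 2 + 1) ≤
        (w 0 + w 1 + w 2) * (w 0 + w 1 + w 2 + 1) := by nlinarith
    have h6 : (B μ + 1) * (B μ + 2) ≤ (d + 1) * (d + 2) := Nat.mul_le_mul (by omega) (by omega)
    have h7 : (w 0 + w 1 + w 2) * (w 0 + w 1 + w 2 + 1) ≤ B μ * (B μ + 1) :=
      Nat.mul_le_mul (by omega) (by omega)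
    nlinarith
  · by_contra hcon
    push Not at hcon
    have h2 : (Finset.Ico 3 s).card ≤ ∑ i ∈ Finset.Ico 3 s, (w i + 1).choose 2 := by
      rw [Finset.card_eq_sum_ones]
      apply Finset.sum_le_sum
      intro i hi
      rw [Finset.mem_Ico] at hi
      have := hpos i hi.2
      exact Nat.choose_pos (by omega)
    rw [Nat.card_Ico] at h2
    omega

lemma six (h5 : FiveStm) (h3 : ThirdStm) (h : Exception s d w) :
    d < 11000000000 * (max (w 5) 1) ^ 8 :=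
  lt_of_lt_of_le (bounds2 h5 h3 h (le_max_right _ _) (le_max_left _ _)).2.1
    (B_le (le_max_right _ _))

end

/-- finitely many exceptions for a bounded sixth multiplicity -/
lemma finite (h5 : FiveStm) (h3 : ThirdStm) (μ : ℕ) :
    {x : ℕ × ℕ × (ℕ → ℕ) | x.2.2 5 ≤ μ ∧ Exception x.1 x.2.1 x.2.2}.Finite := by
  obtain ⟨N, hN⟩ : ∃ N, N = B (max μ 1) + 3 := ⟨_, rfl⟩
  have key : ∀ x : ℕ × ℕ × (ℕ → ℕ), x.2.2 5 ≤ μ → Exception x.1 x.2.1 x.2.2 →
      x.1 < N ∧ x.2.1 < N ∧ ∀ i, x.2.2 i < N := by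
    rintro ⟨s, d, w⟩ hw h
    simp only at hw h ⊢
    obtain ⟨b1, b2, b3⟩ := bounds2 h5 h3 h (μ := max μ 1) (le_max_right _ _)
      (hw.trans (le_max_left _ _))
    refine ⟨by omega, by omega, fun i => ?_⟩
    have := h.2.1 (Nat.zero_le i)
    omega
  apply Set.Finite.of_finite_image
    (f := fun x : ℕ × ℕ × (ℕ → ℕ) => (x.1, x.2.1, fun i : Fin N => x.2.2 i))
  · have hfin : ((Set.Iio N) ×ˢ (Set.Iio N) ×ˢ
        (Set.univ.pi fun _ : Fin N => Set.Iio N)).Finite :=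
      (Set.finite_Iio N).prod ((Set.finite_Iio N).prod (Set.Finite.pi fun _ => Set.finite_Iio N))
    apply hfin.subset
    rintro _ ⟨x, ⟨hx1, hx2⟩, rfl⟩
    obtain ⟨k1, k2, k3⟩ := key x hx1 hx2
    exact ⟨k1, k2, fun i _ => k3 i⟩
  · rintro ⟨s, d, w⟩ ⟨hx1, hx2⟩ ⟨s', d', w'⟩ ⟨hy1, hy2⟩ hxy
    simp only [Prod.mk.injEq] at hxy
    obtain ⟨e1, e2, e3⟩ := hxy
    obtain ⟨k1, -, -⟩ := key _ hx1 hx2
    simp only at e1 e2 e3 k1 hx2 hy2
    subst e1
    subst e2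
    have : w = w' := by
      funext i
      by_cases hi : i < N
      · exact congrFun e3 ⟨i, hi⟩
      · rw [hx2.2.2.2.1 i (by omega), hy2.2.2.2.1 i (by omega)]
    rw [this]

end Pool.Agent.R735.SX
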